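import Pool.Agent.H78.S.Targets

/-!
# Row IRG of sgt_modules: connected groups are irreducible
-/

set_option autoImplicit false

open Set Pool.Agent.H77.BC Pool.Agent.H78.S
open scoped Pointwise

namespace Pool.Agent.H1.S

private theorem big_map {M : Type} {U : RU M} {Γ : Type} [Group Γ] [Cod M Γ] [DG U Γ]
    {H : Subgroup Γ} (f : Γ → Γ) (hf : DFn U f) (hinj : Function.Injective f)
    (hH : ∀ h ∈ H, f h ∈ H) {X T : Set Γ} (hT : ∀ x ∈ X, f x ∈ T)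
    (hX : Big U (H : Set Γ) X) : Big U (H : Set Γ) T := by
  obtain ⟨Y, hY, hne, hYH, hYX, hR⟩ := hX
  refine ⟨f '' Y, DFn_image hf hY, hne.image _, ?_, ?_, ?_⟩
  · rintro _ ⟨y, hy, rfl⟩
    exact hH y (hYH hy)
  · rintro _ ⟨y, hy, rfl⟩
    exact hT y (hYX hy)
  · rw [(l_RKB U).inj hY hf hne hinj.injOn]
    exact hR

theorem pf_IRG (hBGA : T_BGA) : T_IRG := by
  intro M U Γ _ _ _ H hH
  have hIrr : Irr U (H : Set Γ) := by
    refine ⟨hH.1, ⟨1, H.one_mem⟩, ?_⟩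
    rintro X Y ⟨X', hX1, hX2, hX3, hX4, hX5⟩ ⟨Y', hY1, hY2, hY3, hY4, hY5⟩
    obtain ⟨z, hz1, hz2⟩ := l_DEG U H hH X' Y' hX1 hY1 hX3 hY3 hX2 hY2 hX5 hY5
    exact ⟨z, hX4 hz1, hY4 hz2⟩
  have h1 : ∀ X : Set Γ, Big U (H : Set Γ) X → ∀ g ∈ H, Big U (H : Set Γ) {h | g * h ∈ X} := by
    intro X hX g hg
    refine big_map (fun x => g⁻¹ * x) (DFn_gmul (DFn_const g⁻¹) DFn_id)
      (mul_right_injective _) (fun h hh => H.mul_mem (H.inv_mem hg) hh) (fun x hx => ?_) hX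
    rw [mem_ofPred_eq, mul_inv_cancel_left]
    exact hx
  have h2 : ∀ X : Set Γ, Big U (H : Set Γ) X → ∀ g ∈ H, Big U (H : Set Γ) {h | h * g ∈ X} := by
    intro X hX g hg
    refine big_map (fun x => x * g⁻¹) (DFn_gmul DFn_id (DFn_const g⁻¹))
      (mul_left_injective _) (fun h hh => H.mul_mem hh (H.inv_mem hg)) (fun x hx => ?_) hX
    rw [mem_ofPred_eq, inv_mul_cancel_right]
    exact hx
  have h3 : ∀ X : Set Γ, Big U (H : Set Γ) X → Big U (H : Set Γ) {h | h⁻¹ ∈ X} := by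
    intro X hX
    refine big_map (fun x => x⁻¹) (DFn_ginv DFn_id)
      inv_injective (fun h hh => H.inv_mem hh) (fun x hx => ?_) hX
    rw [mem_ofPred_eq, inv_inv]
    exact hx
  refine ⟨hIrr, fun X hX => ⟨h1 X hX, h2 X hX, h3 X hX, fun Y hY h hh => ?_⟩⟩
  have h4 : Big U (H : Set Γ) {a | a⁻¹ * h ∈ Y} := h3 _ (h2 Y hY h hh)
  obtain ⟨a, ha1, ha2⟩ := hIrr.2.2 X {a | a⁻¹ * h ∈ Y} hX h4
  exact ⟨a, ha1, a⁻¹ * h, ha2, by rw [mul_inv_cancel_left]⟩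

end Pool.Agent.H1.S
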