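import Pool.Agent.H78.S.T8

/-!
# Row LAU of sgt_modules: definable groups which act on a line by field automorphisms act trivially
-/

set_option autoImplicit false

open Set Pool.Agent.H77.BC Pool.Agent.H78.S
open scoped Pointwise

namespace Pool.Agent.H1.S

theorem pf_LAU (hLCD : T_LCD) (hAUF : T_AUF) (kEXA : Pool.Agent.H77.KG.T_EXA)
    (kEXB : Pool.Agent.H77.KG.T_EXB) : T_LAU := by
  intro C hC M U hU G S _ _ _ _ _ _ hact H X T o e hctx E L Γ hΓ hφ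
  obtain ⟨M', U', e0, h, c, hC', hDF, hfD⟩ := hLCD C hC U hU hact H X T o e hctx E L
  have hda : Pool.Agent.H77.KG.DA U G S := ⟨hact⟩
  obtain ⟨hE1, hE2, hE3, hE4, hE5⟩ := kEXB U U' e0 h
  let cG : Cod M' G := Pool.Agent.H77.KG.codE h.inj
  let cS : Cod M' S := Pool.Agent.H77.KG.codE h.inj
  have hDG : DG U' G := hE3
  have hFS : Ful U' S := hE1
  have hDA : Pool.Agent.H77.KG.DA U' G S := hE5
  have hΓ' : U'.D (Γ : Set G) :=
    ((kEXA U U' e0 h (α := G) (β := G) (γ := G)).1.D _).2 hΓ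
  have hDΓ : DG U' Γ := Pool.Agent.H77.KG.dgSub Γ hΓ'
  have hinf : Infinite L.K := L.line.inf
  choose φ hφ using hφ
  have hmul : ∀ g g' : Γ, φ (g * g').1 (g * g').2 = φ g.1 g.2 * φ g'.1 g'.2 := by
    intro g g'
    ext k
    obtain ⟨y, hy, rfl⟩ := L.line.onto k
    have h1 := (hφ (g * g').1 (g * g').2 y hy).2
    have h2 := hφ g'.1 g'.2 y hy
    have h3 := (hφ g.1 g.2 _ h2.1).2
    have h4 : (g * g').1 • y = g.1 • g'.1 • y := mul_smul g.1 g'.1 y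
    rw [h4, h3, h2.2] at h1
    exact h1.symm
  obtain ⟨α, hα⟩ : ∃ α : Γ →* (L.K ≃+* L.K), ∀ g : Γ, α g = φ g.1 g.2 :=
    ⟨MonoidHom.mk' (fun g => φ g.1 g.2) hmul, fun _ => rfl⟩
  have hD : DFn U' (fun p : Γ × L.K => α p.1 p.2) := by
    have h1 : U'.D {z : (Γ × L.K) × L.K | ∃ y : S, (y ∈ X ∧ z.1.2 = L.f y) ∧
        (z.1.1.1 • y ∈ X ∧ z.2 = L.f (z.1.1.1 • y))} := by
      refine D_exists (p := fun (z : (Γ × L.K) × L.K) (y : S) => (y ∈ X ∧ z.1.2 = L.f y) ∧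
        (z.1.1.1 • y ∈ X ∧ z.2 = L.f (z.1.1.1 • y))) ?_
      have e1 : DFn U' (fun x : ((Γ × L.K) × L.K) × S => x.2) := DFn_snd
      have e2 : DFn U' (fun x : ((Γ × L.K) × L.K) × S => x.1.1) := DFn_comp DFn_fst DFn_fst
      have e3 : DFn U' (fun x : ((Γ × L.K) × L.K) × S => x.1.1.2) := DFn_comp DFn_snd e2
      have e4 : DFn U' (fun x : ((Γ × L.K) × L.K) × S => x.1.1.1) := DFn_comp DFn_fst e2
      have e5 : DFn U' (fun x : ((Γ × L.K) × L.K) × S => x.1.2) := DFn_comp DFn_snd DFn_fst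
      have e6 : DFn U' (fun x : ((Γ × L.K) × L.K) × S => x.1.1.1.1) :=
        DFn_comp (g := fun g : Γ => g.1) (Pool.Agent.H77.KG.DFn_sval' hΓ') e4
      have e7 : DFn U' (fun x : ((Γ × L.K) × L.K) × S => x.1.1.1.1 • x.2) :=
        Pool.Agent.H77.KG.DFn_act e6 e1
      exact D_and (D_subst (p := fun q : S × L.K => q.1 ∈ X ∧ q.2 = L.f q.1) hfD
          (DFn_pair e1 e3))
        (D_subst (p := fun q : S × L.K => q.1 ∈ X ∧ q.2 = L.f q.1) hfD (DFn_pair e7 e5))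
    have e : {z : (Γ × L.K) × L.K | z.2 = α z.1.1 z.1.2} =
        {z : (Γ × L.K) × L.K | ∃ y : S, (y ∈ X ∧ z.1.2 = L.f y) ∧
        (z.1.1.1 • y ∈ X ∧ z.2 = L.f (z.1.1.1 • y))} := by
      ext z
      constructor
      · intro hz
        have hz' : z.2 = α z.1.1 z.1.2 := hz
        obtain ⟨y, hy, hfy⟩ := L.line.onto z.1.2
        have h2 := hφ z.1.1.1 z.1.1.2 y hy
        refine ⟨y, ⟨hy, hfy.symm⟩, h2.1, ?_⟩
        rw [hz', hα, ← hfy, h2.2]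
      · rintro ⟨y, ⟨hy, hfy⟩, -, hz⟩
        change z.2 = α z.1.1 z.1.2
        rw [hz, hα, hfy, (hφ z.1.1.1 z.1.1.2 y hy).2]
    unfold DFn
    rw [e]
    exact h1
  have hfin := hAUF U' α hD
  intro g hg y hy
  rw [(hφ g hg y hy).2]
  have h5 := hfin ⟨g, hg⟩ (L.f y)
  rw [hα] at h5
  exact h5

end Pool.Agent.H1.S
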